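import Pool.Agent.Work.MP_db9399_owc.Interface
import Pool.Agent.Work.MP_db9399_ow_helper20.DEV
import Pool.Agent.Work.MP_db9399_ow_helper20.LOCP
import Pool.Agent.Work.MP_db9399_ow_helper44.OFFX

/-!
# MP_db9399, OWN2, block OVL (helper79): the bad vertices are few in every test
-/

set_option autoImplicit false
set_option maxHeartbeats 4000000

namespace Pool.Agent.Work.MP_db9399_owc.helper79

open Finset Classical
open Pool.Agent.Work.MP_db9399_all (nb mis pr DepOnI)
open Pool.Agent.Work.MP_db9399_en (ex ex_prod ex_sum ex_const_mul ex_mono ex_nonneg ex_add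
  chern_up)
open Pool.Agent.Work.MP_db9399_ow
open Pool.Agent.Work.MP_db9399_owc
open Pool.Agent.Work.MP_db9399_ow.helper20 (pr_inst pr_mono' pr_or' pr_ex' pr_eq_ex Xs sum_off
  sum_one ex_coord)

universe u v

section basic
variable {V : Type u} [Fintype V] {P M : ℕ}

theorem pr_false {Ω : Type u} [Fintype Ω] (E : Ω → Prop) (h : ∀ ω, ¬ E ω) : pr E = 0 := by
  unfold pr
  have : ∀ s : Finset Ω, (∀ ω ∈ s, E ω) → s.card = 0 := by
    intro s hs
    rw [Finset.card_eq_zero, Finset.eq_empty_iff_forall_notMem]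
    intro ω hω
    exact h ω (hs ω hω)
  rw [this _ (fun ω hω => (Finset.mem_filter.mp hω).2)]
  simp

theorem card_ge {M T : ℕ} (hT : T ≤ M) :
    ∑ i : Fin M, (if T ≤ (i : ℕ) then (1 : ℝ) else 0) = (M : ℝ) - T := by
  have h1 : ∑ i : Fin M, (if T ≤ (i : ℕ) then (1 : ℝ) else 0) =
      ∑ i ∈ range M, (if T ≤ i then (1 : ℝ) else 0) :=
    Fin.sum_univ_eq_sum_range (fun i => if T ≤ i then (1 : ℝ) else 0) M
  rw [h1, ← sum_filter, sum_const, nsmul_eq_mul, mul_one]
  have h2 : (range M).filter (fun i => T ≤ i) = Finset.Ico T M := by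
    ext i
    simp only [mem_filter, mem_range, mem_Ico]
    omega
  rw [h2, Nat.card_Ico, Nat.cast_sub hT]

/-- all labels of a set are late -/
theorem pr_all (b : Fin P) (N : Finset V) (T : ℕ) (hM : 0 < M) (hT : T ≤ M) :
    pr (fun ω : Fin P × V → Fin M => ∀ w ∈ N, T ≤ (ω (b, w) : ℕ)) =
      (1 - (T : ℝ) / M) ^ N.card := by
  rw [pr_eq_ex]
  have h1 : ∀ (ω : Fin P × V → Fin M) (dec : Decidable (∀ w ∈ N, T ≤ (ω (b, w) : ℕ))),
      @ite ℝ (∀ w ∈ N, T ≤ (ω (b, w) : ℕ)) dec 1 0 =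
      ∏ w ∈ N, (if T ≤ (ω (b, w) : ℕ) then (1 : ℝ) else 0) := by
    intro ω dec
    by_cases h : ∀ w ∈ N, T ≤ (ω (b, w) : ℕ)
    · rw [if_pos h]
      symm
      exact prod_eq_one fun w hw => if_pos (h w hw)
    · rw [if_neg h]
      push Not at h
      obtain ⟨w, hw, hlt⟩ := h
      symm
      exact prod_eq_zero hw (if_neg (not_le.2 hlt))
  refine (congrArg ex (funext fun ω => h1 ω _)).trans ?_
  rw [ex_prod hM N (fun w => {(b, w)})
    (fun w ω => (if T ≤ (ω (b, w) : ℕ) then (1 : ℝ) else 0))]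
  · have h2 : ∀ w ∈ N, ex (fun ω : Fin P × V → Fin M =>
        (if T ≤ (ω (b, w) : ℕ) then (1 : ℝ) else 0)) = 1 - (T : ℝ) / M := by
      intro w _
      have h3 := ex_coord hM (b, w) (fun i : Fin M => if T ≤ (i : ℕ) then (1 : ℝ) else 0)
      have hM' : (M : ℝ) ≠ 0 := by exact_mod_cast hM.ne'
      rw [h3, card_ge hT, sub_div, div_self hM']
    rw [prod_congr rfl h2, prod_const]
  · intro w _ a a' haa
    have : a (b, w) = a' (b, w) := haa (b, w) (mem_singleton_self _)
    show (if T ≤ (a (b, w) : ℕ) then (1 : ℝ) else 0) = _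
    rw [this]
  · intro w _ w' _ hne
    rw [disjoint_singleton]
    intro h
    exact hne (Prod.ext_iff.mp h).2

end basic

section two
variable {V : Type u} [Fintype V] {P : ℕ}

/-- local minima which are late -/
theorem pr_late (G : SimpleGraph V) (U : Finset V) (D N1 t T : ℕ) (b : Fin P) (v : V)
    (hN1 : 1 ≤ N1) (htD : t ≤ D) (hD : 0 < D) (hn : D ≤ 4 * (nb G v ∩ U).card) :
    pr (fun ω : Fin P × V → Fin (D * N1) => v ∈ loc G U T ω b ∧ v ∉ ear U N1 t ω b) ≤
      Real.exp (-((t : ℝ) / 4)) := by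
  have hM : 0 < D * N1 := Nat.mul_pos hD (by omega)
  have hT : N1 * t ≤ D * N1 := by
    rw [mul_comm D]
    exact Nat.mul_le_mul_left _ htD
  have h1 : pr (fun ω : Fin P × V → Fin (D * N1) => v ∈ loc G U T ω b ∧ v ∉ ear U N1 t ω b) ≤
      pr (fun ω : Fin P × V → Fin (D * N1) => ∀ w ∈ nb G v ∩ U, N1 * t ≤ (ω (b, w) : ℕ)) := by
    refine pr_mono' fun ω => ?_
    rintro ⟨hl, he⟩ w hw
    simp only [loc, mem_filter] at hl
    simp only [ear, mem_filter, not_and, not_lt] at he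
    have h2 := he hl.1
    have h3 := hl.2.2 w hw
    exact h2.trans (le_of_lt h3)
  refine h1.trans ?_
  rw [pr_all b (nb G v ∩ U) (N1 * t) hM hT]
  obtain ⟨n, hnn⟩ : ∃ n : ℕ, n = (nb G v ∩ U).card := ⟨_, rfl⟩
  rw [← hnn] at hn ⊢
  have hDR : (0 : ℝ) < D := by exact_mod_cast hD
  have hN1R : (0 : ℝ) < N1 := by exact_mod_cast hN1
  have h4 : ((N1 * t : ℕ) : ℝ) / ((D * N1 : ℕ) : ℝ) = (t : ℝ) / D := by
    push_cast
    field_simp
  rw [h4]
  have htD' : (t : ℝ) / D ≤ 1 := by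
    rw [div_le_one hDR]
    exact_mod_cast htD
  have h5 : (1 - (t : ℝ) / D) ^ n ≤ Real.exp (-((t : ℝ) / D)) ^ n :=
    pow_le_pow_left₀ (by linarith) (Real.one_sub_le_exp_neg _) n
  refine h5.trans ?_
  rw [← Real.exp_nat_mul]
  apply Real.exp_le_exp.mpr
  have h6 : (D : ℝ) ≤ 4 * n := by exact_mod_cast hn
  have h7 : (t : ℝ) / 4 ≤ n * ((t : ℝ) / D) := by
    rw [mul_div_assoc', le_div_iff₀ hDR]
    have : (0 : ℝ) ≤ t := by positivity
    nlinarith
  linarith

/-- a set with too many early offers -/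
theorem pr_full (hO : Stmt_OFFX.{u}) (U Z : Finset V) (D N1 t : ℕ) (b : Fin P) (k Λ' : ℝ)
    (hN1 : 1 ≤ N1) (hD : 0 < D) (ht : 1 ≤ t) (hΛ : 0 ≤ Λ')
    (hk : 2 * ((t : ℝ) / D) * ((Z ∩ U).card : ℝ) ≤ k) (hk2 : 8 * Λ' ≤ k) :
    pr (fun ω : Fin P × V → Fin (D * N1) => k < ((ear U N1 t ω b ∩ Z).card : ℝ)) ≤
      Real.exp (-Λ') := by
  have hM : 0 < D * N1 := Nat.mul_pos hD (by omega)
  have hDR : (0 : ℝ) < D := by exact_mod_cast hD
  have htR : (0 : ℝ) < t := by exact_mod_cast ht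
  have hN1R : (0 : ℝ) < N1 := by exact_mod_cast hN1
  rcases Nat.eq_zero_or_pos (Z ∩ U).card with h0 | h0
  · rw [pr_false]
    · positivity
    · intro ω hω
      have h1 : (ear U N1 t ω b ∩ Z).card = 0 := by
        rw [← Nat.le_zero, ← h0]
        apply card_le_card
        intro v hv
        rw [mem_inter] at hv ⊢
        simp only [ear, mem_filter] at hv
        exact ⟨hv.2, hv.1.1⟩
      rw [h1] at hω
      rw [h0] at hk
      push_cast at hω hk
      linarith
  · obtain ⟨Fz, hFz⟩ : ∃ Fz : Fin P → V → ℝ, ∀ b v, Fz b v = if v ∈ Z ∩ U then (1 : ℝ) else 0 :=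
      ⟨fun _ v => if v ∈ Z ∩ U then (1 : ℝ) else 0, fun _ _ => rfl⟩
    have h1 := hO (V := V) P (D * N1) (N1 * t) U
      (fun y => if y.1 = b then Fz b y.2 else 0)
      ((t : ℝ) / D) 1 ((Z ∩ U).card : ℝ) k Λ' hM (by
        push_cast
        have : (t : ℝ) / D * (D * N1) = N1 * t := by
          field_simp
        rw [this]) (by positivity) one_pos (by exact_mod_cast h0) hΛ
      (fun y => by
        show 0 ≤ (if y.1 = b then Fz b y.2 else 0)
        rw [hFz]
        split_ifs <;> norm_num)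
      (fun y => by
        show (if y.1 = b then Fz b y.2 else 0) ≤ 1
        rw [hFz]
        split_ifs <;> norm_num)
      (by
        rw [sum_one]
        simp only [hFz]
        rw [← sum_filter, sum_const, nsmul_eq_mul, mul_one]
        have : (univ.filter fun v : V => v ∈ Z ∩ U) = Z ∩ U := by
          ext v; simp
        rw [this]) hk (by linarith)
    simp only [sum_off] at h1
    refine le_trans ?_ h1
    refine pr_mono' fun ω hω => ?_
    unfold Xs
    simp only [hFz]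
    have h2 : (ear U N1 t ω b ∩ Z).card = ((off U (N1 * t) ω b).filter
        (fun v => v ∈ Z ∩ U)).card := by
      congr 1
      ext v
      simp only [ear, off, mem_inter, mem_filter]
      tauto
    rw [← sum_filter, sum_const, nsmul_eq_mul, mul_one, ← h2]
    exact hω.le

end two

section defs
variable {V : Type u} [Fintype V] {P M : ℕ} {Y : Type u}

/-- sum over the bad vertices -/
noncomputable def Hs (G : SimpleGraph V) (U : Finset V) (T N1 t : ℕ) (Z : Y → Finset V)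
    (k : Y → ℝ) (F : Fin P → V → ℝ) (b : Fin P) (ω : Fin P × V → Fin M) : ℝ :=
  ∑ v ∈ bad G U T N1 t Z k ω b, F b v

/-- truncated -/
noncomputable def Ht (G : SimpleGraph V) (U : Finset V) (T N1 t : ℕ) (Z : Y → Finset V)
    (k : Y → ℝ) (F : Fin P → V → ℝ) (ξ : ℝ) (b : Fin P) (ω : Fin P × V → Fin M) : ℝ :=
  if Xs U T F b ω < ξ then Hs G U T N1 t Z k F b ω else 0

theorem Hs_le (G : SimpleGraph V) (U : Finset V) (T N1 t : ℕ) (Z : Y → Finset V)
    (k : Y → ℝ) (F : Fin P → V → ℝ) (b : Fin P) (ω : Fin P × V → Fin M)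
    (hF0 : ∀ b v, 0 ≤ F b v) : Hs G U T N1 t Z k F b ω ≤ Xs U T F b ω := by
  refine sum_le_sum_of_subset_of_nonneg ?_ fun v _ _ => hF0 b v
  intro v hv
  simp only [bad, loc, off, mem_filter] at hv ⊢
  exact ⟨hv.1.1, hv.1.2.1⟩

theorem dep_Ht (G : SimpleGraph V) (U : Finset V) (T N1 t : ℕ) (Z : Y → Finset V)
    (k : Y → ℝ) (F : Fin P → V → ℝ) (ξ : ℝ) (b : Fin P) :
    DepOnI (M := M) (univ.filter (fun y : Fin P × V => y.1 = b))
      (Ht G U T N1 t Z k F ξ b) := by
  intro a a' haa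
  have h1 : ∀ v, a (b, v) = a' (b, v) := fun v => haa (b, v) (by simp)
  have h2 : off U T a b = off U T a' b := by
    unfold off
    simp only [h1]
  have h3 : loc G U T a b = loc G U T a' b := by
    unfold loc
    simp only [h1]
  have h4 : ear U N1 t a b = ear U N1 t a' b := by
    unfold ear
    simp only [h1]
  unfold Ht Hs Xs bad
  rw [h2, h3, h4]

theorem ex_Hs (G : SimpleGraph V) (U : Finset V) (T N1 t : ℕ) (Z : Y → Finset V)
    (k : Y → ℝ) (F : Fin P → V → ℝ) (b : Fin P) :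
    ex (M := M) (Hs G U T N1 t Z k F b) = ∑ v ∈ U, F b v *
      pr (fun ω : Fin P × V → Fin M => v ∈ bad G U T N1 t Z k ω b) := by
  have h1 : Hs G U T N1 t Z k F b = fun ω : Fin P × V → Fin M =>
      ∑ v ∈ U, F b v * (if v ∈ bad G U T N1 t Z k ω b then (1 : ℝ) else 0) := by
    funext ω
    simp only [mul_ite, mul_one, mul_zero]
    rw [← sum_filter]
    unfold Hs
    refine sum_congr ?_ fun _ _ => rfl
    ext v
    simp only [bad, loc, mem_filter]
    tauto
  rw [h1, ex_sum]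
  refine sum_congr rfl fun v _ => ?_
  rw [ex_const_mul, pr_eq_ex]
  refine congrArg (fun z => F b v * z) (congrArg ex (funext fun ω => ?_))
  by_cases h : v ∈ bad G U T N1 t Z k ω b
  · rw [if_pos h, if_pos h]
  · rw [if_neg h, if_neg h]

end defs

theorem ovl (hO : Stmt_OFFX.{u}) : Stmt_OVL.{u} := by
  intro V _ P D N1 t G U Y _ Z k B F K ξ Λ Λ' ε hN1 hND ht htN hK hΛ hΛ' hε _ hF0 hFK hF1 hdeg
    hk hk2 hξ hKξ hξε hbad
  have hD : 0 < D := by omega
  have hDR : (0 : ℝ) < D := by exact_mod_cast hD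
  have hN1R : (1 : ℝ) ≤ N1 := by exact_mod_cast hN1
  have hM : 0 < D * N1 := Nat.mul_pos hD (by omega)
  have htN1 : t ≤ N1 := by
    rw [pow_two] at htN
    exact Nat.le_of_mul_le_mul_left htN (by omega)
  have htD : t ≤ D := by omega
  have hξ0 : 0 < ξ := lt_of_lt_of_le (by positivity) hξ
  have hTq : ((N1 ^ 2 : ℕ) : ℝ) ≤ (N1 : ℝ) / D * ((D * N1 : ℕ) : ℝ) := by
    push_cast
    have : (N1 : ℝ) / D * (D * N1) = (N1 : ℝ) ^ 2 := by
      field_simp
    rw [this]
  generalize hTd : N1 ^ 2 = T at hTq ⊢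
  -- offers
  have hXb : ∀ b, pr (fun ω : Fin P × V → Fin (D * N1) => ξ ≤ Xs U T F b ω) ≤
      Real.exp (-Λ) := by
    intro b
    have h1 := hO (V := V) P (D * N1) T U (fun y => if y.1 = b then F b y.2 else 0)
      ((N1 : ℝ) / D) K 1 ξ Λ hM hTq (by positivity) hK one_pos hΛ (fun y => by
          show 0 ≤ (if y.1 = b then F b y.2 else 0)
          split_ifs
          · exact hF0 b y.2
          · exact le_refl 0) (fun y => by
          show (if y.1 = b then F b y.2 else 0) ≤ K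
          split_ifs
          · exact hFK b y.2
          · exact hK.le) (by
          rw [sum_one]
          exact hF1 b) (by
          have : 2 * ((N1 : ℝ) / D) * 1 = 2 * (N1 : ℝ) / D := by ring
          rw [this]
          exact hξ) hKξ
    simp only [sum_off] at h1
    exact h1
  -- one vertex
  have hpv : ∀ b, ∀ v ∈ U, pr (fun ω : Fin P × V → Fin (D * N1) =>
      v ∈ bad G U T N1 t Z k ω b) ≤ Real.exp (-((t : ℝ) / 4)) +
        (univ.filter (fun y => v ∈ Z y)).card * Real.exp (-Λ') := by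
    intro b v hv
    have h1 : pr (fun ω : Fin P × V → Fin (D * N1) => v ∈ bad G U T N1 t Z k ω b) ≤
        pr (fun ω : Fin P × V → Fin (D * N1) => (v ∈ loc G U T ω b ∧ v ∉ ear U N1 t ω b) ∨
          ∃ y ∈ univ.filter (fun y => v ∈ Z y), k y < ((ear U N1 t ω b ∩ Z y).card : ℝ)) := by
      refine pr_mono' fun ω hω => ?_
      simp only [bad, mem_filter] at hω
      rcases hω.2 with h | ⟨y, hy, hy2⟩
      · exact Or.inl ⟨hω.1, h⟩
      · exact Or.inr ⟨y, mem_filter.mpr ⟨mem_univ _, hy⟩, hy2⟩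
    refine h1.trans ((pr_or' _ _).trans ?_)
    refine add_le_add (pr_late G U D N1 t T b v hN1 htD hD (hdeg v hv)) ?_
    exact pr_ex' (univ.filter (fun y => v ∈ Z y))
      (fun y (ω : Fin P × V → Fin (D * N1)) => k y < ((ear U N1 t ω b ∩ Z y).card : ℝ))
      fun y _ => pr_full hO U (Z y) D N1 t b (k y) Λ' hN1 hD ht hΛ' (hk y) (hk2 y)
  rcases B.eq_empty_or_nonempty with hBe | hBne
  · subst hBe
    rw [pr_false]
    · positivity
    · intro ω hω
      rw [sum_empty] at hω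
      linarith
  have hBc : (0 : ℝ) < B.card := by exact_mod_cast hBne.card_pos
  have hH0 : ∀ b (ω : Fin P × V → Fin (D * N1)), 0 ≤ Hs G U T N1 t Z k F b ω :=
    fun b ω => sum_nonneg fun v _ => hF0 b v
  have hH'0 : ∀ b (ω : Fin P × V → Fin (D * N1)), 0 ≤ Ht G U T N1 t Z k F ξ b ω := by
    intro b ω
    unfold Ht
    split_ifs
    · exact hH0 b ω
    · exact le_refl 0
  have hH'ξ : ∀ b (ω : Fin P × V → Fin (D * N1)), Ht G U T N1 t Z k F ξ b ω ≤ ξ := by
    intro b ω
    unfold Ht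
    split_ifs with h
    · exact (Hs_le G U T N1 t Z k F b ω hF0).trans h.le
    · exact hξ0.le
  have hexH : ∀ b ∈ B, ex (M := D * N1) (Ht G U T N1 t Z k F ξ b) ≤ ε / (8 * B.card) := by
    intro b _
    have h1 : ex (M := D * N1) (Ht G U T N1 t Z k F ξ b) ≤
        ex (M := D * N1) (Hs G U T N1 t Z k F b) := by
      refine ex_mono hM fun ω => ?_
      unfold Ht
      split_ifs
      · exact le_refl _
      · exact hH0 b ω
    refine h1.trans ?_
    rw [ex_Hs]
    have h2 : ∑ v ∈ U, F b v * pr (fun ω : Fin P × V → Fin (D * N1) =>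
        v ∈ bad G U T N1 t Z k ω b) ≤ ∑ v ∈ U, F b v * (ε / (8 * B.card)) := by
      refine sum_le_sum fun v hv => mul_le_mul_of_nonneg_left ?_ (hF0 b v)
      refine (hpv b v hv).trans ?_
      rw [le_div_iff₀ (by positivity)]
      have := hbad v
      linarith
    refine h2.trans ?_
    rw [← sum_mul]
    have h3 : ∑ v ∈ U, F b v ≤ 1 :=
      (sum_le_sum_of_subset_of_nonneg (subset_univ _) fun v _ _ => hF0 b v).trans (hF1 b)
    have h4 : 0 ≤ ε / (8 * B.card) := by positivity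
    nlinarith
  have hsum : ∑ b ∈ B, ex (M := D * N1) (Ht G U T N1 t Z k F ξ b) ≤ ε / 2 := by
    refine (sum_le_card_nsmul B _ _ hexH).trans ?_
    rw [nsmul_eq_mul]
    have h1 : (B.card : ℝ) * (ε / (8 * B.card)) = ε / 8 := by
      field_simp
    rw [h1]
    linarith
  have hdis : ∀ b ∈ B, ∀ b' ∈ B, b ≠ b' →
      Disjoint (univ.filter (fun y : Fin P × V => y.1 = b))
        (univ.filter (fun y : Fin P × V => y.1 = b')) := by
    intro b _ b' _ hne
    rw [disjoint_left]
    intro y hy hy'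
    simp only [mem_filter, mem_univ, true_and] at hy hy'
    exact hne (hy.symm.trans hy')
  have hΛξ : Λ ≤ ε / (64 * ξ) := by
    rw [le_div_iff₀ (by positivity)]
    linarith
  have hup : pr (fun ω : Fin P × V → Fin (D * N1) => ε / 2 + ε / 2 ≤
      ∑ b ∈ B, Ht G U T N1 t Z k F ξ b ω) ≤ Real.exp (-Λ) := by
    have h1 := chern_up hM B (fun b => univ.filter (fun y : Fin P × V => y.1 = b))
      (Ht G U T N1 t Z k F ξ) (fun b _ => dep_Ht G U T N1 t Z k F ξ b) hdis
      (fun b _ ω => hH'0 b ω) (fun b _ ω => hH'ξ b ω) hξ0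
      (m := ε / 2) (s := ε / 2) (by linarith) hsum (by linarith)
    refine ((pr_inst _ _ _).trans_le h1).trans (Real.exp_le_exp.2 (neg_le_neg (le_min ?_ ?_)))
    · refine hΛξ.trans ?_
      rw [div_le_div_iff₀ (by positivity) (by positivity)]
      have h3 : 0 ≤ ε ^ 2 * ξ := by positivity
      nlinarith
    · refine hΛξ.trans ?_
      rw [div_le_div_iff₀ (by positivity) (by positivity)]
      have h3 : 0 ≤ ε * ξ := by positivity
      nlinarith
  -- union
  have hun := pr_ex' B (fun b (ω : Fin P × V → Fin (D * N1)) => ξ ≤ Xs U T F b ω)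
    fun b _ => hXb b
  have hall : pr (fun ω : Fin P × V → Fin (D * N1) => ε ≤ ∑ b ∈ B,
      ∑ v ∈ bad G U T N1 t Z k ω b, F b v) ≤
      pr (fun ω : Fin P × V → Fin (D * N1) => (∃ b ∈ B, ξ ≤ Xs U T F b ω) ∨
        (ε / 2 + ε / 2 ≤ ∑ b ∈ B, Ht G U T N1 t Z k F ξ b ω)) := by
    refine pr_mono' fun ω hω => ?_
    by_cases hb : ∃ b ∈ B, ξ ≤ Xs U T F b ω
    · exact Or.inl hb
    · right
      push Not at hb
      have h1 : ∑ b ∈ B, Ht G U T N1 t Z k F ξ b ω =
          ∑ b ∈ B, ∑ v ∈ bad G U T N1 t Z k ω b, F b v := by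
        refine sum_congr rfl fun b hbB => ?_
        unfold Ht
        rw [if_pos (hb b hbB)]
        rfl
      rw [h1]
      linarith
  refine hall.trans ((pr_or' _ _).trans ?_)
  have h6 : 0 < Real.exp (-Λ) := Real.exp_pos _
  linarith

/-- **OVL** -/
theorem stmt_OVL : Stmt_OVL.{u} := ovl Pool.Agent.Work.MP_db9399_ow.helper44.stmt_OFFX

end Pool.Agent.Work.MP_db9399_owc.helper79
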