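import Pool.Agent.Work.MP_db9399_owc.Blocks
import Pool.Agent.Work.MP_db9399_ow_helper20.DEV
import Pool.Agent.Work.MP_db9399_ow_helper20.LOCP

/-!
# MP_db9399, OWN2, block SSUB (helper79): every vertex chooses `32 m` of its candidates
-/

set_option autoImplicit false
set_option maxHeartbeats 4000000
set_option linter.unusedSectionVars false

namespace Pool.Agent.Work.MP_db9399_owc.helper79

open Finset Classical
open Pool.Agent.Work.MP_db9399_all (nb pr DepOnI)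
open Pool.Agent.Work.MP_db9399_en (ex chern_up)
open Pool.Agent.Work.MP_db9399_ow
open Pool.Agent.Work.MP_db9399_owc
open Pool.Agent.Work.MP_db9399_ow.helper20 (pr_inst pr_mono' ex_coord)

universe u

namespace SS

section basic
variable {V : Type u} [Fintype V] {P l R : ℕ}

/-- number of the choices of the colour `b` in the set `W` -/
noncomputable def cnt (s : V → Fin l → Fin P) (W : Finset V) (b : Fin P)
    (ω : V × Fin R → Fin l) : ℕ :=
  ((W ×ˢ (univ : Finset (Fin R))).filter (fun y => s y.1 (ω y) = b)).card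

theorem cnt_sum (s : V → Fin l → Fin P) (W : Finset V) (b : Fin P) (ω : V × Fin R → Fin l) :
    ((cnt s W b ω : ℕ) : ℝ) =
      ∑ y ∈ W ×ˢ (univ : Finset (Fin R)), (if s y.1 (ω y) = b then (1 : ℝ) else 0) := by
  unfold cnt
  rw [← sum_filter, sum_const, nsmul_eq_mul, mul_one]

theorem dep_cnt (s : V → Fin l → Fin P) (W : Finset V) (b : Fin P) :
    DepOnI (W ×ˢ (univ : Finset (Fin R))) (cnt (R := R) s W b) := by
  intro f f' h
  unfold cnt
  congr 1
  apply filter_congr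
  intro y hy
  rw [h y hy]

theorem mean (s : V → Fin l → Fin P) (W : Finset V) (b : Fin P) (hl : 0 < l) :
    ∑ y ∈ W ×ˢ (univ : Finset (Fin R)),
      ex (fun ω : V × Fin R → Fin l => (if s y.1 (ω y) = b then (1 : ℝ) else 0)) =
      R * (((W ×ˢ (univ : Finset (Fin l))).filter (fun y => s y.1 y.2 = b)).card : ℝ) / l := by
  have h1 : ∀ y ∈ W ×ˢ (univ : Finset (Fin R)),
      ex (fun ω : V × Fin R → Fin l => (if s y.1 (ω y) = b then (1 : ℝ) else 0)) =
      (∑ a, (if s y.1 a = b then (1 : ℝ) else 0)) / l := by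
    intro y _
    exact ex_coord hl y (fun a => if s y.1 a = b then (1 : ℝ) else 0)
  rw [sum_congr rfl h1, sum_product]
  have h2 : ((((W ×ˢ (univ : Finset (Fin l))).filter (fun y => s y.1 y.2 = b)).card : ℕ) : ℝ) =
      ∑ w ∈ W, ∑ a, (if s w a = b then (1 : ℝ) else 0) := by
    rw [← sum_product (s := W) (t := univ)
      (f := fun y => if s y.1 y.2 = b then (1 : ℝ) else 0), ← sum_filter, sum_const, nsmul_eq_mul,
      mul_one]
  rw [h2]
  have h3 : ∀ w ∈ W, ∑ _j : Fin R, (∑ a, (if s w a = b then (1 : ℝ) else 0)) / l =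
      (R / l) * ∑ a, (if s w a = b then (1 : ℝ) else 0) := by
    intro w _
    rw [sum_const, card_univ, Fintype.card_fin, nsmul_eq_mul]
    ring
  rw [sum_congr rfl h3, ← mul_sum]
  ring

theorem tail (s : V → Fin l → Fin P) (W : Finset V) (b : Fin P) (hl : 0 < l) (μ σ : ℝ)
    (hμ : 0 < μ) (hσ : 0 ≤ σ)
    (h : R * (((W ×ˢ (univ : Finset (Fin l))).filter (fun y => s y.1 y.2 = b)).card : ℝ) / l ≤ μ)
    {i : Fintype (V × Fin R → Fin l)} :
    @pr _ i (fun ω : V × Fin R → Fin l => μ + σ ≤ ((cnt s W b ω : ℕ) : ℝ)) ≤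
      Real.exp (-(min (σ ^ 2 / (4 * μ)) (σ / 2))) := by
  have h1 := chern_up hl (W ×ˢ (univ : Finset (Fin R))) (fun y => {y})
    (fun y (ω : V × Fin R → Fin l) => (if s y.1 (ω y) = b then (1 : ℝ) else 0))
    (fun y _ f f' hf => by
      have : f y = f' y := hf y (mem_singleton_self _)
      show (if s y.1 (f y) = b then (1 : ℝ) else 0) = _
      rw [this])
    (fun y _ y' _ hne => by
      rw [disjoint_singleton]
      exact hne)
    (fun y _ ω => by
      show 0 ≤ (if s y.1 (ω y) = b then (1 : ℝ) else 0)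
      split_ifs <;> norm_num)
    (B := 1) (fun y _ ω => by
      show (if s y.1 (ω y) = b then (1 : ℝ) else 0) ≤ 1
      split_ifs <;> norm_num) one_pos (m := μ) (s := σ) hμ (by rw [mean s W b hl]; exact h) hσ
  rw [mul_one, mul_one] at h1
  refine (@pr_mono' _ i _ _ (fun ω hω => ?_)).trans ((pr_inst i _ _).trans_le h1)
  rw [cnt_sum] at hω
  exact hω

theorem pr_false {Ω : Type u} {i : Fintype Ω} (E : Ω → Prop) (h : ∀ ω, ¬ E ω) : @pr Ω i E = 0 := by
  unfold pr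
  have : ∀ t : Finset Ω, (∀ ω ∈ t, E ω) → t.card = 0 := by
    intro t ht
    rw [Finset.card_eq_zero, Finset.eq_empty_iff_forall_notMem]
    intro ω hω
    exact h ω (ht ω hω)
  rw [this _ (fun ω hω => (Finset.mem_filter.mp hω).2)]
  simp

end basic

/-- final numbers -/
theorem numbers (d : ℕ) (hd : 10864 ≤ d) :
    16 * ((1 : ℝ) / (d : ℝ) ^ 8) * (96 * (d : ℝ) ^ 3 + 1) * (6 * (d : ℝ) ^ 4 + 1) ≤ 1 := by
  have hdR : (10864 : ℝ) ≤ d := by exact_mod_cast hd
  have h0 : (0 : ℝ) < d := by linarith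
  have h3 : (1 : ℝ) ≤ (d : ℝ) ^ 3 := one_le_pow₀ (by linarith)
  have h4 : (1 : ℝ) ≤ (d : ℝ) ^ 4 := one_le_pow₀ (by linarith)
  have h5 : (96 * (d : ℝ) ^ 3 + 1) * (6 * (d : ℝ) ^ 4 + 1) ≤
      (97 * (d : ℝ) ^ 3) * (7 * (d : ℝ) ^ 4) :=
    mul_le_mul (by linarith) (by linarith) (by positivity) (by positivity)
  have h6 : 16 * ((1 : ℝ) / (d : ℝ) ^ 8) * ((97 * (d : ℝ) ^ 3) * (7 * (d : ℝ) ^ 4)) =
      10864 / d := by
    field_simp
    ring
  have h7 : 16 * ((1 : ℝ) / (d : ℝ) ^ 8) * ((96 * (d : ℝ) ^ 3 + 1) * (6 * (d : ℝ) ^ 4 + 1)) ≤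
      16 * ((1 : ℝ) / (d : ℝ) ^ 8) * ((97 * (d : ℝ) ^ 3) * (7 * (d : ℝ) ^ 4)) :=
    mul_le_mul_of_nonneg_left h5 (by positivity)
  rw [h6] at h7
  have h8 : 10864 / (d : ℝ) ≤ 1 := by
    rw [div_le_one h0]; exact hdR
  have h9 : 16 * ((1 : ℝ) / (d : ℝ) ^ 8) * (96 * (d : ℝ) ^ 3 + 1) * (6 * (d : ℝ) ^ 4 + 1) =
      16 * ((1 : ℝ) / (d : ℝ) ^ 8) * ((96 * (d : ℝ) ^ 3 + 1) * (6 * (d : ℝ) ^ 4 + 1)) := by ring
  rw [h9]
  linarith

section events
variable {V Y : Type u} [Fintype V] [Fintype Y] {P l : ℕ}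

/-- scopes -/
noncomputable def QQ (G : SimpleGraph V) (U : Finset V) (Z : Y → Finset V) (m : ℕ) :
    (V × Fin P) ⊕ (Y × Fin P) → Finset (V × Fin (32 * m))
  | Sum.inl z => (nb G z.1 ∩ U) ×ˢ (univ : Finset (Fin (32 * m)))
  | Sum.inr z => (Z z.1 ∩ U) ×ˢ (univ : Finset (Fin (32 * m)))

/-- events -/
noncomputable def EE (G : SimpleGraph V) (U : Finset V) (Z : Y → Finset V) (m d : ℕ)
    (s : V → Fin l → Fin P) :
    (V × Fin P) ⊕ (Y × Fin P) → (V × Fin (32 * m) → Fin l) → Prop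
  | Sum.inl z => fun ω => z.1 ∈ U ∧ (m : ℝ) < ((cnt s (nb G z.1 ∩ U) z.2 ω : ℕ) : ℝ)
  | Sum.inr z => fun ω => 64 * (m : ℝ) * (1 + ((Z z.1).card : ℝ) / d) <
      ((cnt s (Z z.1 ∩ U) z.2 ω : ℕ) : ℝ)

theorem dep_EE (G : SimpleGraph V) (U : Finset V) (Z : Y → Finset V) (m d : ℕ)
    (s : V → Fin l → Fin P) (k : (V × Fin P) ⊕ (Y × Fin P)) :
    DepOnI (QQ G U Z m k) (EE G U Z m d s k) := by
  rcases k with z | z
  · intro g g' h
    have h1 := dep_cnt (R := 32 * m) s (nb G z.1 ∩ U) z.2 g g' h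
    exact congrArg (fun n : ℕ => (z.1 ∈ U ∧ (m : ℝ) < (n : ℝ))) h1
  · intro g g' h
    have h1 := dep_cnt (R := 32 * m) s (Z z.1 ∩ U) z.2 g g' h
    exact congrArg (fun n : ℕ => (64 * (m : ℝ) * (1 + ((Z z.1).card : ℝ) / d) < (n : ℝ))) h1

theorem card_QQ (G : SimpleGraph V) (U : Finset V) (Z : Y → Finset V) (m d : ℕ)
    (hd1 : (1 : ℝ) ≤ d) (hmd : (m : ℝ) ≤ d) (hdeg : ∀ v, (nb G v).card ≤ 2 * d) (hZ : Cap d Z)
    (k : (V × Fin P) ⊕ (Y × Fin P)) : ((QQ G U Z m k).card : ℝ) ≤ 96 * (d : ℝ) ^ 3 := by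
  have h32 : (((32 * m : ℕ) : ℝ)) ≤ 32 * d := by push_cast; linarith
  rcases k with z | z
  · unfold QQ
    rw [card_product, card_univ, Fintype.card_fin]
    have h1 : (nb G z.1 ∩ U).card ≤ 2 * d :=
      (card_le_card inter_subset_left).trans (hdeg z.1)
    have h2 : ((nb G z.1 ∩ U).card : ℝ) ≤ 2 * d := by exact_mod_cast h1
    rw [Nat.cast_mul]
    have h3 : ((nb G z.1 ∩ U).card : ℝ) * ((32 * m : ℕ) : ℝ) ≤ (2 * d) * (32 * d) :=
      mul_le_mul h2 h32 (by positivity) (by positivity)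
    refine h3.trans ?_
    have h4 : (d : ℝ) ^ 2 ≤ (d : ℝ) ^ 3 := pow_le_pow_right₀ hd1 (by norm_num)
    nlinarith
  · unfold QQ
    rw [card_product, card_univ, Fintype.card_fin]
    have h1 : (Z z.1 ∩ U).card ≤ d ^ 2 :=
      (card_le_card inter_subset_left).trans (hZ.card z.1)
    have h2 : ((Z z.1 ∩ U).card : ℝ) ≤ (d : ℝ) ^ 2 := by exact_mod_cast h1
    rw [Nat.cast_mul]
    have h3 : ((Z z.1 ∩ U).card : ℝ) * ((32 * m : ℕ) : ℝ) ≤ ((d : ℝ) ^ 2) * (32 * d) :=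
      mul_le_mul h2 h32 (by positivity) (by positivity)
    refine h3.trans ?_
    have h4 : (0 : ℝ) ≤ (d : ℝ) ^ 3 := by positivity
    nlinarith

theorem mul_QQ (G : SimpleGraph V) (U : Finset V) (Z : Y → Finset V) (m d : ℕ)
    (hd1 : (1 : ℝ) ≤ d) (hP : (P : ℝ) ≤ 2 * d) (hdeg : ∀ v, (nb G v).card ≤ 2 * d)
    (hZ : Cap d Z) (y : V × Fin (32 * m))
    {dec : DecidablePred fun k : (V × Fin P) ⊕ (Y × Fin P) => y ∈ QQ G U Z m k} :
    ((@Finset.filter _ (fun k : (V × Fin P) ⊕ (Y × Fin P) => y ∈ QQ G U Z m k) dec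
      univ).card : ℝ) ≤ 6 * (d : ℝ) ^ 4 := by
  obtain ⟨w, j⟩ := y
  have h1 : (@Finset.filter _ (fun k : (V × Fin P) ⊕ (Y × Fin P) => (w, j) ∈ QQ G U Z m k) dec
      univ) ⊆ (nb G w ×ˢ (univ : Finset (Fin P))).disjSum
        ((univ.filter fun y => w ∈ Z y) ×ˢ (univ : Finset (Fin P))) := by
    intro k hk
    have hk' := (mem_filter.mp hk).2
    rcases k with z | z
    · rw [inl_mem_disjSum, mem_product]
      refine ⟨?_, mem_univ _⟩
      have h2 : (w, j) ∈ (nb G z.1 ∩ U) ×ˢ (univ : Finset (Fin (32 * m))) := hk'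
      rw [mem_product, mem_inter] at h2
      have h3 := h2.1.1
      simp only [nb, mem_filter, mem_univ, true_and] at h3 ⊢
      exact h3.symm
    · rw [inr_mem_disjSum, mem_product, mem_filter]
      have h2 : (w, j) ∈ (Z z.1 ∩ U) ×ˢ (univ : Finset (Fin (32 * m))) := hk'
      rw [mem_product, mem_inter] at h2
      exact ⟨⟨mem_univ _, h2.1.1⟩, mem_univ _⟩
  have h2 := card_le_card h1
  rw [card_disjSum, card_product, card_product, card_univ, Fintype.card_fin] at h2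
  have h3 : ((@Finset.filter _ (fun k : (V × Fin P) ⊕ (Y × Fin P) => (w, j) ∈ QQ G U Z m k) dec
      univ).card : ℝ) ≤
      ((((nb G w).card * P + (univ.filter fun y => w ∈ Z y).card * P : ℕ)) : ℝ) := by
    exact_mod_cast h2
  refine h3.trans ?_
  push_cast
  have h4 : ((nb G w).card : ℝ) ≤ 2 * d := by exact_mod_cast hdeg w
  have h5 : ((univ.filter fun y => w ∈ Z y).card : ℝ) ≤ (d : ℝ) ^ 3 := by
    exact_mod_cast hZ.mul w
  have h6 : ((nb G w).card : ℝ) * P ≤ (2 * d) * (2 * d) :=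
    mul_le_mul h4 hP (by positivity) (by positivity)
  have h7 : ((univ.filter fun y => w ∈ Z y).card : ℝ) * P ≤ (d : ℝ) ^ 3 * (2 * d) :=
    mul_le_mul h5 hP (by positivity) (by positivity)
  have h8 : (d : ℝ) ^ 2 ≤ (d : ℝ) ^ 4 := pow_le_pow_right₀ hd1 (by norm_num)
  nlinarith

theorem pr_EE (G : SimpleGraph V) (U : Finset V) (Z : Y → Finset V) (m d : ℕ)
    (s : V → Fin l → Fin P) (hl : 0 < l) (hd0 : (0 : ℝ) < d) (hm0 : (0 : ℝ) < m)
    (hexp : Real.exp (-((m : ℝ) / 4)) ≤ 1 / (d : ℝ) ^ 8)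
    (hvb : ∀ v ∈ U, ∀ b, 2048 * (((nb G v ∩ U) ×ˢ (univ : Finset (Fin l))).filter
      (fun y => s y.1 y.2 = b)).card ≤ l)
    (hyb : ∀ y b, ((((Z y ∩ U) ×ˢ (univ : Finset (Fin l))).filter
      (fun p => s p.1 p.2 = b)).card : ℝ) ≤ l * (1 + ((Z y).card : ℝ) / d))
    (k : (V × Fin P) ⊕ (Y × Fin P)) {i : Fintype (V × Fin (32 * m) → Fin l)} :
    @pr _ i (EE G U Z m d s k) ≤ 1 / (d : ℝ) ^ 8 := by
  have hlR : (0 : ℝ) < l := by exact_mod_cast hl
  rcases k with z | z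
  · by_cases hz : z.1 ∈ U
    · have h1 := tail (R := 32 * m) (i := i) s (nb G z.1 ∩ U) z.2 hl ((m : ℝ) / 64)
        (63 * (m : ℝ) / 64) (by positivity) (by positivity) (by
          have h2 := hvb z.1 hz z.2
          have h3 : 2048 * ((((nb G z.1 ∩ U) ×ˢ (univ : Finset (Fin l))).filter
            (fun y => s y.1 y.2 = z.2)).card : ℝ) ≤ l := by exact_mod_cast h2
          rw [div_le_iff₀ hlR]
          push_cast
          nlinarith)
      refine (@pr_mono' _ i _ _ (fun ω hω => ?_)).trans (h1.trans (le_trans ?_ hexp))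
      · have h2 : (m : ℝ) < ((cnt s (nb G z.1 ∩ U) z.2 ω : ℕ) : ℝ) := hω.2
        linarith
      · apply Real.exp_le_exp.mpr
        apply neg_le_neg
        apply le_min
        · rw [le_div_iff₀ (by positivity)]
          nlinarith
        · linarith
    · rw [pr_false _ (fun ω hω => hz hω.1)]
      positivity
  · have hμ : (0 : ℝ) < 32 * m * (1 + ((Z z.1).card : ℝ) / d) := by positivity
    have h1 := tail (R := 32 * m) (i := i) s (Z z.1 ∩ U) z.2 hl
      (32 * m * (1 + ((Z z.1).card : ℝ) / d)) (32 * m * (1 + ((Z z.1).card : ℝ) / d)) hμ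
      hμ.le (by
        have h2 := hyb z.1 z.2
        rw [div_le_iff₀ hlR]
        push_cast
        have h3 : (0 : ℝ) ≤ 32 * m := by positivity
        have h4 := mul_le_mul_of_nonneg_left h2 h3
        refine h4.trans (le_of_eq ?_)
        ring)
    refine (@pr_mono' _ i _ _ (fun ω hω => ?_)).trans (h1.trans (le_trans ?_ hexp))
    · have h2 : 64 * (m : ℝ) * (1 + ((Z z.1).card : ℝ) / d) <
        ((cnt s (Z z.1 ∩ U) z.2 ω : ℕ) : ℝ) := hω
      linarith
    · apply Real.exp_le_exp.mpr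
      apply neg_le_neg
      have h5 : (m : ℝ) ≤ 32 * m * (1 + ((Z z.1).card : ℝ) / d) := by
        have h6 : (0 : ℝ) ≤ ((Z z.1).card : ℝ) / d := by positivity
        nlinarith
      apply le_min
      · rw [le_div_iff₀ (by positivity)]
        nlinarith
      · linarith

end events

end SS

open SS

/-- **SSUB** -/
theorem stmt_SSUB (hS : Stmt_SYM.{u}) : Stmt_SSUB.{u} := by
  refine ⟨10864, ?_⟩
  intro V Y _ _ G d P l m Z U s hd hl _ hP hdeg hZ hm hmd hvb hyb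
  have hdR : (10864 : ℝ) ≤ d := by exact_mod_cast hd
  have hd0 : (0 : ℝ) < d := by linarith
  have hlR : (0 : ℝ) < l := by exact_mod_cast hl
  have hlog : 0 < Real.log d := Real.log_pos (by linarith)
  have hm0 : (0 : ℝ) < m := by linarith
  have hmd' : (m : ℝ) ≤ d := by exact_mod_cast hmd
  have hPR : (P : ℝ) ≤ 2 * d := by exact_mod_cast hP
  have hd1 : (1 : ℝ) ≤ d := by linarith
  -- exp (- m / 4) is small
  have hexp : Real.exp (-((m : ℝ) / 4)) ≤ 1 / (d : ℝ) ^ 8 := by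
    have h1 : Real.exp (-((m : ℝ) / 4)) ≤ Real.exp (-(8 * Real.log d)) := by
      apply Real.exp_le_exp.mpr
      linarith
    refine h1.trans (le_of_eq ?_)
    rw [Real.exp_neg, mul_comm, Real.exp_mul, Real.exp_log hd0, one_div]
    norm_cast
  obtain ⟨f, hf⟩ := hS (V × Fin (32 * m)) l ((V × Fin P) ⊕ (Y × Fin P)) (QQ G U Z m)
    (EE G U Z m d s) (1 / (d : ℝ) ^ 8) (96 * (d : ℝ) ^ 3) (6 * (d : ℝ) ^ 4) hl (by positivity)
    (by positivity) (dep_EE G U Z m d s) (card_QQ G U Z m d hd1 hmd' hdeg hZ)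
    (fun y => mul_QQ G U Z m d hd1 hPR hdeg hZ y) (by positivity)
    (fun k => pr_EE G U Z m d s hl hd0 hm0 hexp hvb hyb k) (numbers d hd)
  refine ⟨fun v j => f (v, j), ?_, ?_⟩
  · intro v hv b
    have h1 := hf (Sum.inl (v, b))
    by_contra hcon
    push Not at hcon
    apply h1
    refine ⟨hv, ?_⟩
    exact_mod_cast hcon
  · intro y b
    have h1 := hf (Sum.inr (y, b))
    by_contra hcon
    push Not at hcon
    exact h1 hcon

end Pool.Agent.Work.MP_db9399_owc.helper79
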